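import Pool.Agent.W394.BQN.Stm

/-!
# Project BQN, part EIS: totally ramified extensions

`V[z]/(z^e - π)` is a local principal ideal domain if `V` is a local principal ideal domain with
prime `π`.
-/

set_option autoImplicit false

open Polynomial

noncomputable section

namespace Pool.Agent.W530.BQN

open _root_.BQ Pool.Agent.W394.BQN

theorem t_EIS : S_EIS := by
  intro V _ _ _ _ π hπ e he
  have he0 : e ≠ 0 := by omega
  have hPprime : (Ideal.span {π} : Ideal V).IsPrime :=
    (Ideal.span_singleton_prime hπ.ne_zero).2 hπ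
  have hPmax : (Ideal.span {π} : Ideal V).IsMaximal :=
    IsPrime.to_maximal_ideal (hpi := hPprime) (by simpa using hπ.ne_zero)
  have hPeq : (Ideal.span {π} : Ideal V) = IsLocalRing.maximalIdeal V :=
    IsLocalRing.eq_maximalIdeal hPmax
  set f : V[X] := X ^ e - C π with hf
  have hmonic : f.Monic := monic_X_pow_sub_C π he0
  have hdeg : f.natDegree = e := natDegree_X_pow_sub_C
  have heis : f.IsEisensteinAt (Ideal.span {π}) := by
    refine ⟨?_, ?_, ?_⟩
    · rw [hmonic.leadingCoeff]
      exact fun h => hPprime.ne_top ((Ideal.eq_top_iff_one _).2 h)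
    · intro n hn
      rw [hdeg] at hn
      rw [hf, coeff_sub, coeff_X_pow, coeff_C, if_neg (by omega : ¬ n = e), zero_sub]
      split_ifs
      · exact (Ideal.span {π}).neg_mem (Ideal.mem_span_singleton_self π)
      · simp
    · rw [hf, coeff_sub, coeff_X_pow, coeff_C, if_neg (by omega : ¬ 0 = e), zero_sub, if_pos rfl,
        Ideal.span_singleton_pow, Ideal.mem_span_singleton, dvd_neg]
      rintro ⟨c, hc⟩
      apply hπ.not_isUnit
      refine IsUnit.of_mul_eq_one c ?_
      apply mul_left_cancel₀ hπ.ne_zero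
      rw [mul_one, ← mul_assoc, ← pow_two]
      exact hc.symm
  have hirr : Irreducible f :=
    heis.irreducible hPprime hmonic.isPrimitive (by omega)
  have hprime : Prime f := hirr.prime
  have hdom : IsDomain (AdjoinRoot f) := AdjoinRoot.isDomain_of_prime hprime
  have hfin : Module.Finite V (AdjoinRoot f) := hmonic.finite_adjoinRoot
  have hnoeth : IsNoetherianRing (AdjoinRoot f) := IsNoetherianRing.of_finite V (AdjoinRoot f)
  set z : AdjoinRoot f := AdjoinRoot.root f with hz
  have hze : z ^ e = AdjoinRoot.of f π := by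
    have h := AdjoinRoot.eval₂_root f
    rw [hf] at h
    rw [eval₂_sub, eval₂_X_pow, eval₂_C] at h
    exact sub_eq_zero.1 h
  -- the residue map
  let φ : AdjoinRoot f →+* V ⧸ (Ideal.span {π} : Ideal V) :=
    AdjoinRoot.lift (Ideal.Quotient.mk (Ideal.span {π})) 0 (by
      rw [hf, eval₂_sub, eval₂_X_pow, eval₂_C, zero_pow he0, zero_sub, neg_eq_zero,
        Ideal.Quotient.eq_zero_iff_mem]
      exact Ideal.mem_span_singleton_self π)
  have hφs : Function.Surjective φ := by
    intro x
    obtain ⟨v, rfl⟩ := Ideal.Quotient.mk_surjective x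
    exact ⟨AdjoinRoot.of f v, AdjoinRoot.lift_of _⟩
  have hker : RingHom.ker φ = Ideal.span {z} := by
    apply le_antisymm
    · intro w hw
      obtain ⟨g, rfl⟩ := AdjoinRoot.mk_surjective w
      rw [RingHom.mem_ker, AdjoinRoot.lift_mk, eval₂_at_zero, Ideal.Quotient.eq_zero_iff_mem,
        Ideal.mem_span_singleton] at hw
      obtain ⟨c, hc⟩ := hw
      rw [← divX_mul_X_add g, hc, map_add, map_mul, AdjoinRoot.mk_X, AdjoinRoot.mk_C, map_mul,
        ← hze]
      refine Ideal.add_mem _ (Ideal.mul_mem_left _ _ (Ideal.mem_span_singleton_self z)) ?_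
      refine Ideal.mul_mem_right _ _ ?_
      exact Ideal.pow_mem_of_mem _ (Ideal.mem_span_singleton_self z) e he
    · rw [Ideal.span_singleton_le_iff_mem, RingHom.mem_ker]
      exact AdjoinRoot.lift_root _
  have hzmax : (Ideal.span {z} : Ideal (AdjoinRoot f)).IsMaximal := by
    rw [← hker]
    have : (Ideal.span {π} : Ideal V).IsMaximal := hPmax
    let : Field (V ⧸ (Ideal.span {π} : Ideal V)) := Ideal.Quotient.field _
    exact RingHom.ker_isMaximal_of_surjective φ hφs
  have huniq : ∀ I : Ideal (AdjoinRoot f), I.IsMaximal → I = Ideal.span {z} := by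
    intro I hI
    have := hI
    have : Algebra.IsIntegral V (AdjoinRoot f) := inferInstance
    have h1 : (Ideal.comap (algebraMap V (AdjoinRoot f)) I).IsMaximal :=
      Ideal.isMaximal_comap_of_isIntegral_of_isMaximal I
    have h2 : Ideal.comap (algebraMap V (AdjoinRoot f)) I = Ideal.span {π} := by
      rw [hPeq]
      exact IsLocalRing.eq_maximalIdeal h1
    have h3 : π ∈ Ideal.comap (algebraMap V (AdjoinRoot f)) I := by
      rw [h2]
      exact Ideal.mem_span_singleton_self π
    rw [Ideal.mem_comap, AdjoinRoot.algebraMap_eq, ← hze] at h3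
    have h4 : z ∈ I := hI.isPrime.mem_of_pow_mem e h3
    exact (hzmax.eq_of_le hI.ne_top ((Ideal.span_singleton_le_iff_mem I).2 h4)).symm
  have hloc : IsLocalRing (AdjoinRoot f) :=
    IsLocalRing.of_unique_max_ideal ⟨Ideal.span {z}, hzmax, fun I hI => huniq I hI⟩
  have hpir : IsPrincipalIdealRing (AdjoinRoot f) := by
    have htf := tfae_of_isNoetherianRing_of_isLocalRing_of_isDomain (AdjoinRoot f)
    refine (htf.out 4 0).1 ?_
    rw [← huniq (IsLocalRing.maximalIdeal (AdjoinRoot f)) inferInstance |>.symm]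
    exact ⟨⟨z, rfl⟩⟩
  refine ⟨AdjoinRoot f, inferInstance, hdom, hpir, hloc, AdjoinRoot.of f, AdjoinRoot.mk f, ?_,
    AdjoinRoot.mk_surjective, fun c => AdjoinRoot.mk_eq_zero, fun v => AdjoinRoot.mk_C v⟩
  have : (algebraMap V (AdjoinRoot f)).Finite := RingHom.finite_algebraMap.2 hfin
  rwa [AdjoinRoot.algebraMap_eq] at this

end Pool.Agent.W530.BQN
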